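import Mathlib

/-! # The pattern `a, b, ab, a^b, a^b b`: `b` is not determined, up to powers, by the size of `a^b`

For every function `h` and every `C` there is a colouring with `2 (2 C ^ 2 + 1)` colours in which
`a ^ b` and `a ^ b b` have different colours for all `a, b > 1` for which `b` is comparable, up to
powers with exponent `C`, with the value of `h` at the integral part of `log₂ log₂ (a ^ b)`. -/

set_option autoImplicit false

namespace Pool.Agent.Results.MP_1b773e_co.Scales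

/-- the step of the second colouring -/
def st (h : ℕ → ℕ) (n : ℕ) : ℕ := Nat.log 2 (h (Nat.log 2 (Nat.log 2 n))) + 1

/-- comparable scales -/
theorem separate {h : ℕ → ℕ} {C a b : ℕ} (ha : 1 < a) (hb : 1 < b)
    (h1 : h (Nat.log 2 (Nat.log 2 (a ^ b))) ≤ b ^ C)
    (h2 : b ≤ h (Nat.log 2 (Nat.log 2 (a ^ b))) ^ C)
    (h3 : Nat.log 2 (Nat.log 2 (a ^ b * b)) % 2 = Nat.log 2 (Nat.log 2 (a ^ b)) % 2)
    (h4 : 2 * C * Nat.log 2 (a ^ b * b) / st h (a ^ b * b) % (2 * C ^ 2 + 1) =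
      2 * C * Nat.log 2 (a ^ b) / st h (a ^ b) % (2 * C ^ 2 + 1)) : False := by
  set n := a ^ b with hn
  set l := Nat.log 2 n with hl
  set β := Nat.log 2 b with hβ
  have hb0 : b ≠ 0 := by omega
  have hn0 : n ≠ 0 := by rw [hn]; positivity
  have b1 : 2 ^ β ≤ b := Nat.pow_log_le_self 2 hb0
  have b2 : b < 2 ^ (β + 1) := Nat.lt_pow_succ_log_self (by norm_num) b
  have n1 : 2 ^ l ≤ n := Nat.pow_log_le_self 2 hn0
  have n2 : n < 2 ^ (l + 1) := Nat.lt_pow_succ_log_self (by norm_num) n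
  have hβ1 : 1 ≤ β := by
    rw [hβ]
    exact (Nat.le_log_iff_pow_le (by norm_num) hb0).2 (by omega)
  have hlb : b ≤ l := by
    rw [hl]
    refine (Nat.le_log_iff_pow_le (by norm_num) hn0).2 ?_
    rw [hn]
    exact Nat.pow_le_pow_left ha b
  have hm0 : n * b ≠ 0 := Nat.mul_ne_zero hn0 hb0
  have m1 : l + β ≤ Nat.log 2 (n * b) := by
    refine (Nat.le_log_iff_pow_le (by norm_num) hm0).2 ?_
    rw [pow_add]
    exact Nat.mul_le_mul n1 b1
  have m2 : Nat.log 2 (n * b) < l + β + 2 := by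
    refine Nat.log_lt_of_lt_pow hm0 ?_
    calc n * b < 2 ^ (l + 1) * 2 ^ (β + 1) := Nat.mul_lt_mul'' n2 b2
      _ = 2 ^ (l + β + 2) := by rw [← pow_add]; congr 1; omega
  -- the second logarithm does not change
  have hβl : β + 1 ≤ l := (Nat.lt_two_pow_self (n := β)).trans_le (b1.trans hlb)
  have c1 : Nat.log 2 l ≤ Nat.log 2 (Nat.log 2 (n * b)) := Nat.log_mono_right (by omega)
  have c2 : Nat.log 2 (Nat.log 2 (n * b)) ≤ Nat.log 2 l + 1 := by
    rw [← Nat.log_mul_base (by norm_num : 1 < 2) (by omega : l ≠ 0)]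
    exact Nat.log_mono_right (by omega)
  have c3 : Nat.log 2 (Nat.log 2 (n * b)) = Nat.log 2 l := by omega
  have hst : st h (n * b) = st h n := by rw [st, st, c3]
  rw [hst] at h4
  have hsdef : st h n = Nat.log 2 (h (Nat.log 2 l)) + 1 := rfl
  set H := h (Nat.log 2 l) with hH
  set s := st h n with hs
  have hC : C ≠ 0 := by
    rintro rfl
    simp at h2
    omega
  have hH0 : H ≠ 0 := by
    intro h0
    rw [h0, zero_pow hC] at h2
    omega
  have p1 : H < 2 ^ s := by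
    rw [hsdef]
    exact Nat.lt_pow_succ_log_self (by norm_num) H
  have p2 : 2 ^ (s - 1) ≤ H := by
    rw [hsdef, Nat.add_sub_cancel]
    exact Nat.pow_log_le_self 2 hH0
  have q1 : β < s * C := by
    have : 2 ^ β < 2 ^ (s * C) := by
      calc 2 ^ β ≤ b := b1
        _ ≤ H ^ C := h2
        _ < (2 ^ s) ^ C := Nat.pow_lt_pow_left p1 hC
        _ = 2 ^ (s * C) := by rw [← pow_mul]
    exact (Nat.pow_lt_pow_iff_right (by norm_num)).1 this
  have q2 : s - 1 < (β + 1) * C := by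
    have : 2 ^ (s - 1) < 2 ^ ((β + 1) * C) := by
      calc 2 ^ (s - 1) ≤ H := p2
        _ ≤ b ^ C := h1
        _ < (2 ^ (β + 1)) ^ C := Nat.pow_lt_pow_left b2 hC
        _ = 2 ^ ((β + 1) * C) := by rw [← pow_mul]
    exact (Nat.pow_lt_pow_iff_right (by norm_num)).1 this
  have hs0 : 0 < s := by omega
  have r1 : s ≤ 2 * C * β := by
    have : (β + 1) * C ≤ 2 * C * β := by nlinarith
    omega
  have r2 : 2 * C * (β + 1) ≤ 2 * C ^ 2 * s := by
    have : β + 1 ≤ s * C := q1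
    calc 2 * C * (β + 1) ≤ 2 * C * (s * C) := Nat.mul_le_mul_left _ this
      _ = 2 * C ^ 2 * s := by ring
  have t1 : 2 * C * l / s + 1 ≤ 2 * C * Nat.log 2 (n * b) / s := by
    rw [← Nat.add_div_right _ hs0]
    refine Nat.div_le_div_right ?_
    calc 2 * C * l + s ≤ 2 * C * l + 2 * C * β := Nat.add_le_add_left r1 _
      _ = 2 * C * (l + β) := by ring
      _ ≤ 2 * C * Nat.log 2 (n * b) := Nat.mul_le_mul_left _ m1
  have t2 : 2 * C * Nat.log 2 (n * b) / s ≤ 2 * C * l / s + 2 * C ^ 2 := by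
    rw [← Nat.add_mul_div_right _ _ hs0]
    refine Nat.div_le_div_right ?_
    calc 2 * C * Nat.log 2 (n * b) ≤ 2 * C * (l + (β + 1)) := Nat.mul_le_mul_left _ (by omega)
      _ = 2 * C * l + 2 * C * (β + 1) := by ring
      _ ≤ 2 * C * l + 2 * C ^ 2 * s := Nat.add_le_add_left r2 _
  have hle : 2 * C * l / s ≤ 2 * C * Nat.log 2 (n * b) / s := by omega
  have h5 := (Nat.modEq_iff_dvd' hle).1 (show Nat.ModEq (2 * C ^ 2 + 1) _ _ from h4.symm)
  have h6 := Nat.le_of_dvd (by omega) h5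
  omega

/-- **Comparable scales are excluded.** For every function `h` and every `C` there is a finite
colouring such that, for all `a, b > 1` for which `a ^ b` and `a ^ b * b` have the same colour, `b`
is not comparable with the value `H` of `h` at the integral part of `log₂ log₂ (a ^ b)`: not both
of `H ≤ b ^ C` and `b ≤ H ^ C` are true. -/
theorem result (h : ℕ → ℕ) (C : ℕ) : ∃ c : ℕ → Fin 2 × Fin (2 * C ^ 2 + 1),
    ∀ a b : ℕ, 1 < a → 1 < b → c (a ^ b) = c (a ^ b * b) →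
      ¬ (h (Nat.log 2 (Nat.log 2 (a ^ b))) ≤ b ^ C ∧
        b ≤ h (Nat.log 2 (Nat.log 2 (a ^ b))) ^ C) := by
  refine ⟨fun n => (⟨Nat.log 2 (Nat.log 2 n) % 2, Nat.mod_lt _ (by omega)⟩,
    ⟨2 * C * Nat.log 2 n / st h n % (2 * C ^ 2 + 1), Nat.mod_lt _ (by omega)⟩), ?_⟩
  intro a b ha hb h3
  have g := h3.symm
  rw [Prod.mk.injEq] at g
  exact fun ⟨g1, g2⟩ =>
    separate ha hb g1 g2 (congrArg Fin.val g.1) (congrArg Fin.val g.2)

end Pool.Agent.Results.MP_1b773e_co.Scales
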