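import Mathlib

/-! # The pattern `a, b, ab, a^b, a^b b`: `a` is larger than every tower over `b`

For every `N` there is a colouring with `N + 3` colours such that for all `a, b > 1` for which `a`,
`b`, `a ^ b` have the same colour, `a` exceeds the tower of `N` twos topped by `b`. -/

set_option autoImplicit false

namespace Pool.Agent.Results.MP_1b773e_co.TowerGap


/-- the number of times the logarithm to the base two has to be taken until the value is at
most one -/
def ls (n : ℕ) : ℕ := if h : n ≤ 1 then 0 else 1 + ls (Nat.log 2 n)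
termination_by n
decreasing_by exact Nat.log_lt_self 2 (by omega)

theorem ls_le_one {n : ℕ} (h : n ≤ 1) : ls n = 0 := by rw [ls]; simp [h]

theorem ls_gt {n : ℕ} (h : 1 < n) : ls n = 1 + ls (Nat.log 2 n) := by
  rw [ls]; simp [not_le.2 h]

theorem ls_mono {m n : ℕ} (h : m ≤ n) : ls m ≤ ls n := by
  induction n using Nat.strong_induction_on generalizing m with
  | _ n ih =>
    by_cases h1 : m ≤ 1
    · rw [ls_le_one h1]; exact Nat.zero_le _
    · have h2 : 1 < m := not_le.1 h1
      rw [ls_gt h2, ls_gt (h2.trans_le h)]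
      exact Nat.add_le_add_left
        (ih _ (Nat.log_lt_self 2 (by omega)) (Nat.log_mono_right h)) 1

theorem ls_two_pow {b : ℕ} (h : 0 < b) : ls (2 ^ b) = 1 + ls b := by
  rw [ls_gt (Nat.one_lt_two_pow h.ne'), Nat.log_pow (by norm_num)]

theorem ls_tower {b : ℕ} (h : 0 < b) (N : ℕ) : ls ((fun t : ℕ => 2 ^ t)^[N] b) = N + ls b := by
  induction N with
  | zero => simp
  | succ k ih =>
    rw [Function.iterate_succ_apply']
    have hpos : 0 < (fun t : ℕ => 2 ^ t)^[k] b := by
      clear ih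
      induction k with
      | zero => simpa using h
      | succ j _ =>
        rw [Function.iterate_succ_apply']
        positivity
    show ls (2 ^ ((fun t : ℕ => 2 ^ t)^[k] b)) = _
    rw [ls_two_pow hpos, ih]
    ring

theorem mul_succ_le (k : ℕ) : k * (k + 1) ≤ 2 ^ (k + 1) := by
  induction k with
  | zero => simp
  | succ j ih =>
    have h1 : j + 1 ≤ 2 ^ j := Nat.lt_two_pow_self
    have h2 : 2 ^ (j + 1 + 1) = 2 ^ (j + 1) + 2 ^ (j + 1) := by ring
    have h3 : 2 ^ (j + 1) = 2 * 2 ^ j := by ring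
    nlinarith

theorem pow_self_le {M : ℕ} (hM : 0 < M) : M ^ M ≤ 2 ^ 2 ^ M := by
  obtain ⟨k, rfl⟩ : ∃ k, M = k + 1 := ⟨M - 1, by omega⟩
  have h1 : k + 1 ≤ 2 ^ k := Nat.lt_two_pow_self
  calc (k + 1) ^ (k + 1) ≤ (2 ^ k) ^ (k + 1) := Nat.pow_le_pow_left h1 _
    _ = 2 ^ (k * (k + 1)) := by rw [← pow_mul]
    _ ≤ 2 ^ 2 ^ (k + 1) := Nat.pow_le_pow_right (by norm_num) (mul_succ_le k)

theorem ls_pow_le {a b M : ℕ} (ha : a ≤ M) (hb : b ≤ M) (hM : 1 < M) : ls (a ^ b) ≤ 2 + ls M := by
  have h1 : a ^ b ≤ M ^ M :=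
    (Nat.pow_le_pow_left ha b).trans (Nat.pow_le_pow_right (by omega) hb)
  have h2 := ls_mono (h1.trans (pow_self_le (by omega : 0 < M)))
  rw [ls_two_pow (by positivity), ls_two_pow (by omega : 0 < M)] at h2
  omega

theorem le_ls_pow {a b : ℕ} (ha : 1 < a) (hb : 0 < b) : 1 + ls b ≤ ls (a ^ b) := by
  rw [← ls_two_pow hb]
  exact ls_mono (Nat.pow_le_pow_left ha b)

/-- the tower law -/
theorem tower {a b N : ℕ} (ha : 1 < a) (hb : 1 < b) (h1 : ls a % (N + 3) = ls b % (N + 3))
    (h2 : ls (a ^ b) % (N + 3) = ls b % (N + 3)) : (fun t : ℕ => 2 ^ t)^[N] b < a := by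
  by_contra hcon
  rw [not_lt] at hcon
  have e1 := le_ls_pow ha (by omega : 0 < b)
  have key : ∀ x y : ℕ, x % (N + 3) = y % (N + 3) → y ≤ x → x < y + (N + 3) → x = y := by
    intro x y h hle hlt
    have h3 := (Nat.modEq_iff_dvd' hle).1 (show Nat.ModEq (N + 3) y x from h.symm)
    rcases Nat.eq_zero_or_pos (x - y) with h4 | h4
    · omega
    · have := Nat.le_of_dvd h4 h3
      omega
  rcases le_total a b with h | h
  · have e2 := ls_pow_le h le_rfl hb
    have := key _ _ h2 (by omega) (by omega)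
    omega
  · have e3 := ls_mono h
    have e4 := ls_mono hcon
    rw [ls_tower (by omega : 0 < b)] at e4
    have e5 := key _ _ h1 e3 (by omega)
    have e6 := ls_pow_le le_rfl h ha
    have := key _ _ h2 (by omega) (by omega)
    omega

/-- **The size of `a` in a monochromatic pattern.** For every `N` there is a colouring with `N + 3`
colours such that, whenever `a, b > 1` and `a`, `b`, `a ^ b` have the same colour, `a` is larger
than `2 ^ 2 ^ ... ^ 2 ^ b` (with `N` twos). -/
theorem result (N : ℕ) : ∃ c : ℕ → Fin (N + 3), ∀ a b : ℕ, 1 < a → 1 < b →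
    c a = c b → c (a ^ b) = c b → (fun t : ℕ => 2 ^ t)^[N] b < a := by
  refine ⟨fun n => ⟨ls n % (N + 3), Nat.mod_lt _ (by omega)⟩, ?_⟩
  intro a b ha hb h1 h2
  exact tower ha hb (congrArg Fin.val h1) (congrArg Fin.val h2)

end Pool.Agent.Results.MP_1b773e_co.TowerGap
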